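import Pool.Agent.W662.SK.StmtsB

/-!
Project SK, part B12a: isomorphisms are isometric.
-/

set_option autoImplicit false

namespace Pool.Agent.W839.SK

open Pool.Agent.W662.SK

theorem b12a : S_B12a := by
  intro H _ _ _ A B hA hB θ x
  haveI : IsClosed (A : Set (H →L[ℂ] H)) := hA
  haveI : IsClosed (B : Set (H →L[ℂ] H)) := hB
  letI iA : NonUnitalCStarAlgebra A := NonUnitalStarSubalgebra.nonUnitalCStarAlgebra A
  letI iB : NonUnitalCStarAlgebra B := NonUnitalStarSubalgebra.nonUnitalCStarAlgebra B
  exact StarAlgEquiv.norm_map θ x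

end Pool.Agent.W839.SK
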